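import Pool.Agent.H62.Sct4

set_option autoImplicit false

namespace Pool.Agent.Results.MP_975a4b_lc.Exists

open Pool.Agent.H62.Sct

theorem result : ∃ (X : Type) (_ : TopologicalSpace X), CompactSpace X ∧
    TopologicalSpace.MetrizableSpace X ∧ DimLE 1 X ∧ SCTB X ∧
    ∃ X' : Set X, X' ≠ Set.univ ∧ Nonempty (X' ≃ₜ X) :=
  ⟨XX, inferInstance, inferInstance, inferInstance, dim_XX, sctb_XX, self_copy⟩

end Pool.Agent.Results.MP_975a4b_lc.Exists
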